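import Pool.Agent.H450Z.GSUndet

set_option autoImplicit false

namespace Pool.Agent.Results.MP_0c777d_lc.AForcedDetermined

open Pool.Agent.H450Z.GS

/-- For every infinite set `L` there is a forcing notion which adds no subsets of `L` (so that the
ground model set `Set L` is the power set of `L` in the extension) and forces that every
Gale-Stewart game with moves in `L` on the boards `Set L` is determined. -/
theorem result (L : Type) [Infinite L] :
    ∃ (P : Type) (_ : Preorder P), Nonempty P ∧ ∀ p : P, p ∈ NoNewSubsets P L ∧
      ∀ S : (ℕ → L → Set P) → Set P, p ∈ Determined (Set L) S :=
  general L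

end Pool.Agent.Results.MP_0c777d_lc.AForcedDetermined
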